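import Pool.Agent.helper45.BR.Spec

/-!
# Module ORB of project br
-/

set_option autoImplicit false

open Complex Metric Set Filter Topology MeasureTheory MPS Pool.Agent.helper98.ILF
  Pool.Agent.helper16.Multibrot

noncomputable section

namespace BR

theorem ORB_lip {g : ℂ → ℂ} {U : Set ℂ} (hR : RD g U) {x : ℂ} {ρ : ℝ} (hρ : 0 < ρ)
    (hU : closedBall x (2 * ρ) ⊆ U) (i : ℕ) (z w : ℂ) (hz : z ∈ closedBall x ρ)
    (hw : w ∈ closedBall x ρ) : ‖g^[i] z - g^[i] w‖ ≤ 4 / ρ * ‖z - w‖ := by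
  have hd : DifferentiableOn ℂ (g^[i]) U := hR.di.iterate hR.mt i
  have hsub : closedBall x ρ ⊆ U := (closedBall_subset_closedBall (by linarith)).trans hU
  refine Convex.norm_image_sub_le_of_norm_deriv_le (s := closedBall x ρ) ?_ ?_
    (convex_closedBall x ρ) hw hz
  · intro y hy
    exact (hd y (hsub hy)).differentiableAt (hR.op.mem_nhds (hsub hy))
  · intro y hy
    have hy2 : closedBall y ρ ⊆ U := by
      refine Subset.trans ?_ hU
      intro v hv
      rw [mem_closedBall] at *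
      calc dist v x ≤ dist v y + dist y x := dist_triangle _ _ _
        _ ≤ 2 * ρ := by linarith
    refine Complex.norm_deriv_le_of_forall_mem_sphere_norm_le hρ (hd.diffContOnCl_ball hy2) ?_
    intro v hv
    have h1 : v ∈ U := hy2 (sphere_subset_closedBall hv)
    have h2 : g^[i] v ∈ U := hR.mt.iterate i h1
    have h3 := hR.bd h2
    rw [mem_ball_zero_iff] at h3
    exact h3.le

theorem ORB (hSEQ : SEQ_stmt) : ORB_stmt := by
  intro g U hR x hx
  obtain ⟨m, hm, hmL⟩ := hSEQ g U hR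
  obtain ⟨ρ, hρ, hU⟩ : ∃ ρ > (0 : ℝ), closedBall x (2 * ρ) ⊆ U := by
    obtain ⟨ε, hε, h⟩ := Metric.isOpen_iff.1 hR.op x hx
    refine ⟨ε / 4, by positivity, (closedBall_subset_ball ?_).trans h⟩
    linarith
  have hsub : closedBall x ρ ⊆ U := (closedBall_subset_closedBall (by linarith)).trans hU
  have hlip := fun i z w hz hw => ORB_lip hR hρ hU i z w hz hw
  have hxx : x ∈ closedBall x ρ := mem_closedBall_self hρ.le
  set S : Set ℕ := {k | ∀ i, ‖g^[i + k] x - g^[i] x‖ ≤ ρ} with hS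
  have hS0 : 0 ∈ S := by
    intro i
    rw [add_zero, sub_self, norm_zero]
    exact hρ.le
  have hSb : ∀ k ∈ S, g^[k] x ∈ closedBall x ρ := by
    intro k hk
    have h1 := hk 0
    rw [zero_add] at h1
    rw [mem_closedBall, dist_eq_norm]
    exact h1
  -- returns
  have hret : ∀ᶠ j in atTop, ∀ i, ‖g^[i + m j] x - g^[i] x‖ ≤ ρ / 2 := by
    have hc : (0 : ℝ) < min ρ (ρ * ρ / 8) := by positivity
    filter_upwards [hmL {x} (singleton_subset_iff.2 hx) isCompact_singleton _ hc] with j hj i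
    have h1 := hj x (mem_singleton x)
    have h2 : g^[m j] x ∈ closedBall x ρ := by
      rw [mem_closedBall, dist_eq_norm]
      exact h1.trans (min_le_left _ _)
    rw [Function.iterate_add_apply]
    refine (hlip i _ _ h2 hxx).trans ?_
    have h3 : ‖g^[m j] x - x‖ ≤ ρ * ρ / 8 := h1.trans (min_le_right _ _)
    calc 4 / ρ * ‖g^[m j] x - x‖ ≤ 4 / ρ * (ρ * ρ / 8) :=
          mul_le_mul_of_nonneg_left h3 (by positivity)
      _ = ρ / 2 := by field_simp; norm_num
  -- the claim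
  obtain ⟨M, hM⟩ : ∃ M : ℕ, ∀ k ∈ S, ∃ p, 1 ≤ p ∧ p ≤ M ∧ k + p ∈ S := by
    by_contra hcon
    push Not at hcon
    choose k hkS hk using hcon
    obtain ⟨y, -, φ, hφ, hy⟩ := (isCompact_closedBall x ρ).tendsto_subseq
      (x := fun M => g^[k M] x) (fun M => hSb _ (hkS M))
    have hη : (0 : ℝ) < ρ * ρ / 16 := by positivity
    have h1 : ∀ᶠ N in atTop, ‖g^[k (φ N)] x - y‖ < ρ * ρ / 16 := by
      have := (Metric.tendsto_nhds.1 hy) _ hη
      filter_upwards [this] with N hN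
      rwa [← dist_eq_norm]
    obtain ⟨N₀, hN₀⟩ := h1.exists
    obtain ⟨j, hj1, hj2⟩ := (hret.and (hm.eventually_gt_atTop (k (φ N₀)))).exists
    obtain ⟨N, hN1, hN2⟩ := (h1.and (hφ.tendsto_atTop.eventually_ge_atTop (m j - k (φ N₀)))).exists
    refine hk (φ N) (m j - k (φ N₀)) (by omega) hN2 ?_
    intro i
    have e1 : i + (k (φ N) + (m j - k (φ N₀))) = (i + (m j - k (φ N₀))) + k (φ N) := by ring
    have e2 : i + m j = (i + (m j - k (φ N₀))) + k (φ N₀) := by omega
    have h2 := hj1 i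
    rw [e2, Function.iterate_add_apply] at h2
    rw [e1, Function.iterate_add_apply]
    have h3 := hlip (i + (m j - k (φ N₀))) _ _ (hSb _ (hkS (φ N))) (hSb _ (hkS (φ N₀)))
    have h4 : ‖g^[k (φ N)] x - g^[k (φ N₀)] x‖ ≤ ρ * ρ / 8 := by
      have e3 : g^[k (φ N)] x - g^[k (φ N₀)] x = (g^[k (φ N)] x - y) - (g^[k (φ N₀)] x - y) := by ring
      rw [e3]
      refine (norm_sub_le _ _).trans ?_
      linarith
    have h5 : 4 / ρ * ‖g^[k (φ N)] x - g^[k (φ N₀)] x‖ ≤ ρ / 2 := by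
      calc 4 / ρ * ‖g^[k (φ N)] x - g^[k (φ N₀)] x‖ ≤ 4 / ρ * (ρ * ρ / 8) :=
            mul_le_mul_of_nonneg_left h4 (by positivity)
        _ = ρ / 2 := by field_simp; norm_num
    have e4 : g^[i + (m j - k (φ N₀))] (g^[k (φ N)] x) - g^[i] x =
      (g^[i + (m j - k (φ N₀))] (g^[k (φ N)] x) - g^[i + (m j - k (φ N₀))] (g^[k (φ N₀)] x)) +
      (g^[i + (m j - k (φ N₀))] (g^[k (φ N₀)] x) - g^[i] x) := by ring
    rw [e4]
    refine (norm_add_le _ _).trans ?_
    linarith
  have hdec : ∀ k : ℕ, ∃ s ∈ S, s ≤ k ∧ k - s ≤ M := by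
    intro k
    induction k with
    | zero => exact ⟨0, hS0, le_refl _, Nat.zero_le _⟩
    | succ k ih =>
      obtain ⟨s, hs, hsk, hsM⟩ := ih
      by_cases h : k + 1 - s ≤ M
      · exact ⟨s, hs, by omega, h⟩
      · obtain ⟨p, hp1, hp2, hp3⟩ := hM s hs
        exact ⟨s + p, hp3, by omega, by omega⟩
  refine ⟨⋃ l ∈ Finset.range (M + 1), g^[l] '' closedBall x ρ, ?_, ?_, ?_⟩
  · intro z hz
    simp only [mem_iUnion] at hz
    obtain ⟨l, -, w, hw, rfl⟩ := hz
    exact hR.mt.iterate l (hsub hw)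
  · refine (Finset.range (M + 1)).isCompact_biUnion fun l _ => ?_
    exact (isCompact_closedBall x ρ).image_of_continuousOn
      ((hR.di.iterate hR.mt l).continuousOn.mono hsub)
  · intro k
    obtain ⟨s, hs, hsk, hsM⟩ := hdec k
    simp only [mem_iUnion]
    refine ⟨k - s, Finset.mem_range.2 (by omega), g^[s] x, hSb s hs, ?_⟩
    rw [← Function.iterate_add_apply]
    congr 2
    omega

end BR
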